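import Mathlib

/-!
# Tilings of the plane by triangles: definitions
-/

set_option autoImplicit false

namespace Pool.Agent.H787NS

/-- The Euclidean plane. -/
abbrev Plane : Type := EuclideanSpace ℝ (Fin 2)

/-- The closed triangle with the vertices `v 0`, `v 1`, `v 2`. -/
def tri (v : Fin 3 → Plane) : Set Plane := convexHull ℝ (Set.range v)

/-- The family of the closed triangles with vertices `T i 0`, `T i 1`, `T i 2`, for `i` in the
index set `J`, is a tiling of the plane: the triangles are nondegenerate, their union is the whole
plane, and their interiors are pairwise disjoint. -/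
structure IsTiling {J : Type} (T : J → Fin 3 → Plane) : Prop where
  nondeg : ∀ i, AffineIndependent ℝ (T i)
  cover : ⋃ i, tri (T i) = Set.univ
  disj : ∀ i j, i ≠ j → Disjoint (interior (tri (T i))) (interior (tri (T j)))

/-- All three side lengths are positive integers. -/
def IntegerSided (v : Fin 3 → Plane) : Prop :=
  ∀ a b : Fin 3, a ≠ b → ∃ n : ℕ, 0 < n ∧ dist (v a) (v b) = n

/-- The two triangles are similar: for some matching of the vertices the side lengths are
proportional. -/
def SimilarTri (v w : Fin 3 → Plane) : Prop :=
  ∃ (σ : Equiv.Perm (Fin 3)) (r : ℝ), 0 < r ∧ ∀ a b, dist (w a) (w b) = r * dist (v (σ a)) (v (σ b))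

end Pool.Agent.H787NS
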