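import Mathlib

/-!
# Geometry of one block, in the complex plane
-/

set_option autoImplicit false

namespace Pool.Agent.H787NS

open Complex

/-- vertices of the three triangles of a block, in standard position -/
def vt (w x y : ℝ) (j : Fin 3) : Fin 3 → ℂ :=
  match j with
  | 0 => ![⟨0, 0⟩, ⟨0, w⟩, ⟨x, w⟩]
  | 1 => ![⟨x + y, 0⟩, ⟨x + y, w⟩, ⟨x, w⟩]
  | 2 => ![⟨0, 0⟩, ⟨x + y, 0⟩, ⟨x, w⟩]

/-- vertices of the triangles of a block, shifted by `c` and rotated `m` times -/
noncomputable def VV (w x y : ℝ) (m : ℕ) (c : ℂ) (j : Fin 3) : Fin 3 → ℂ :=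
  fun a => I ^ m * (vt w x y j a + c)

/-- coordinates after rotating back `m` times -/
noncomputable def loc (m : ℕ) (z : ℂ) : ℂ := (-I) ^ m * z

theorem loc_I (m : ℕ) (z : ℂ) : loc m (I ^ m * z) = z := by
  unfold loc
  rw [← mul_assoc, ← mul_pow]
  have : -I * I = 1 := by
    rw [neg_mul, I_mul_I, neg_neg]
  rw [this, one_pow, one_mul]

theorem I_loc (m : ℕ) (z : ℂ) : I ^ m * loc m z = z := by
  unfold loc
  rw [← mul_assoc, ← mul_pow]
  have : I * -I = 1 := by
    rw [mul_neg, I_mul_I, neg_neg]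
  rw [this, one_pow, one_mul]

theorem loc_VV (w x y : ℝ) (m : ℕ) (c : ℂ) (j a : Fin 3) :
    loc m (VV w x y m c j a) = vt w x y j a + c := loc_I m _

theorem loc_succ (m : ℕ) (z : ℂ) : loc (m + 1) z = -I * loc m z := by
  unfold loc
  rw [pow_succ']
  ring

theorem loc_succ_re (m : ℕ) (z : ℂ) : (loc (m + 1) z).re = (loc m z).im := by
  rw [loc_succ]
  simp

theorem loc_succ_im (m : ℕ) (z : ℂ) : (loc (m + 1) z).im = -(loc m z).re := by
  rw [loc_succ]
  simp

theorem norm_loc (m : ℕ) (z : ℂ) : ‖loc m z‖ = ‖z‖ := by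
  unfold loc
  rw [norm_mul, norm_pow, norm_neg, norm_I, one_pow, one_mul]

theorem mem_hull (v : Fin 3 → ℂ) (l : Fin 3 → ℝ) (h0 : ∀ a, 0 ≤ l a) (h1 : l 0 + l 1 + l 2 = 1) :
    (l 0 : ℂ) * v 0 + l 1 * v 1 + l 2 * v 2 ∈ convexHull ℝ (Set.range v) := by
  have h := (convex_convexHull ℝ (Set.range v)).sum_mem (t := Finset.univ) (w := l) (z := v)
    (fun a _ => h0 a) (by rw [Fin.sum_univ_three]; exact h1)
    (fun a _ => subset_convexHull ℝ _ ⟨a, rfl⟩)
  rw [Fin.sum_univ_three] at h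
  simpa only [real_smul] using h

theorem block_cover {w x y : ℝ} (hw : 0 < w) (hx : 0 < x) (hy : 0 < y) (m : ℕ) (c z : ℂ)
    (h1 : c.re ≤ (loc m z).re) (h2 : (loc m z).re ≤ c.re + (x + y))
    (h3 : c.im ≤ (loc m z).im) (h4 : (loc m z).im ≤ c.im + w) :
    ∃ j, z ∈ convexHull ℝ (Set.range (VV w x y m c j)) := by
  obtain ⟨u, hu⟩ : ∃ u, (loc m z).re = c.re + u := ⟨(loc m z).re - c.re, by ring⟩
  obtain ⟨t, ht⟩ : ∃ t, (loc m z).im = c.im + t := ⟨(loc m z).im - c.im, by ring⟩
  have hu0 : 0 ≤ u := by linarith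
  have huL : u ≤ x + y := by linarith
  have ht0 : 0 ≤ t := by linarith
  have htw : t ≤ w := by linarith
  have hz : z = I ^ m * (⟨u, t⟩ + c) := by
    rw [← I_loc m z]
    congr 1
    apply Complex.ext
    · rw [hu]
      simp [add_comm]
    · rw [ht]
      simp [add_comm]
  have key : ∀ (j : Fin 3) (l : Fin 3 → ℝ), (∀ a, 0 ≤ l a) → l 0 + l 1 + l 2 = 1 →
      l 0 * (vt w x y j 0).re + l 1 * (vt w x y j 1).re + l 2 * (vt w x y j 2).re = u →
      l 0 * (vt w x y j 0).im + l 1 * (vt w x y j 1).im + l 2 * (vt w x y j 2).im = t →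
      z ∈ convexHull ℝ (Set.range (VV w x y m c j)) := by
    intro j l hl0 hl1 hlr hli
    have hl2 : (l 0 : ℂ) * vt w x y j 0 + l 1 * vt w x y j 1 + l 2 * vt w x y j 2 = ⟨u, t⟩ := by
      apply Complex.ext
      · rw [add_re, add_re, re_ofReal_mul, re_ofReal_mul, re_ofReal_mul]
        exact hlr
      · rw [add_im, add_im, im_ofReal_mul, im_ofReal_mul, im_ofReal_mul]
        exact hli
    have h := mem_hull (VV w x y m c j) l hl0 hl1
    have e : (l 0 : ℂ) * VV w x y m c j 0 + l 1 * VV w x y m c j 1 + l 2 * VV w x y m c j 2 = z := by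
      rw [hz, ← hl2]
      unfold VV
      have hc : ((l 0 : ℂ) + l 1 + l 2) = 1 := by
        rw [← ofReal_add, ← ofReal_add, hl1, ofReal_one]
      calc (l 0 : ℂ) * (I ^ m * (vt w x y j 0 + c)) + l 1 * (I ^ m * (vt w x y j 1 + c)) +
            l 2 * (I ^ m * (vt w x y j 2 + c)) =
          I ^ m * ((l 0 * vt w x y j 0 + l 1 * vt w x y j 1 + l 2 * vt w x y j 2) +
            ((l 0 : ℂ) + l 1 + l 2) * c) := by ring
        _ = _ := by rw [hc, one_mul]
    rw [e] at h
    exact h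
  by_cases hA : w * u ≤ x * t
  · refine ⟨0, key 0 ![1 - t / w, t / w - u / x, u / x] ?_ ?_ ?_ ?_⟩
    · intro a
      fin_cases a
      · change 0 ≤ 1 - t / w
        rw [sub_nonneg, div_le_one hw]
        exact htw
      · change 0 ≤ t / w - u / x
        rw [sub_nonneg, div_le_div_iff₀ hx hw]
        linarith
      · change 0 ≤ u / x
        positivity
    · change 1 - t / w + (t / w - u / x) + u / x = 1
      ring
    · change (1 - t / w) * 0 + (t / w - u / x) * 0 + u / x * x = u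
      field_simp
      ring
    · change (1 - t / w) * 0 + (t / w - u / x) * w + u / x * w = t
      field_simp
      ring
  · by_cases hB : w * (x + y - u) ≤ y * t
    · refine ⟨1, key 1 ![1 - t / w, t / w - (x + y - u) / y, (x + y - u) / y] ?_ ?_ ?_ ?_⟩
      · intro a
        fin_cases a
        · change 0 ≤ 1 - t / w
          rw [sub_nonneg, div_le_one hw]
          exact htw
        · change 0 ≤ t / w - (x + y - u) / y
          rw [sub_nonneg, div_le_div_iff₀ hy hw]
          linarith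
        · change 0 ≤ (x + y - u) / y
          have : 0 ≤ x + y - u := by linarith
          positivity
      · change 1 - t / w + (t / w - (x + y - u) / y) + (x + y - u) / y = 1
        ring
      · change (1 - t / w) * (x + y) + (t / w - (x + y - u) / y) * (x + y) +
          (x + y - u) / y * x = u
        field_simp
        ring
      · change (1 - t / w) * 0 + (t / w - (x + y - u) / y) * w + (x + y - u) / y * w = t
        field_simp
        ring
    · push Not at hA hB
      have hL : 0 < x + y := by linarith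
      refine ⟨2, key 2 ![(w * (x + y - u) - y * t) / (w * (x + y)),
        (w * u - x * t) / (w * (x + y)), t / w] ?_ ?_ ?_ ?_⟩
      · intro a
        fin_cases a
        · change 0 ≤ (w * (x + y - u) - y * t) / (w * (x + y))
          apply div_nonneg _ (by positivity)
          linarith
        · change 0 ≤ (w * u - x * t) / (w * (x + y))
          apply div_nonneg _ (by positivity)
          linarith
        · change 0 ≤ t / w
          positivity
      · change (w * (x + y - u) - y * t) / (w * (x + y)) + (w * u - x * t) / (w * (x + y)) +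
          t / w = 1
        field_simp
        ring
      · change (w * (x + y - u) - y * t) / (w * (x + y)) * 0 +
          (w * u - x * t) / (w * (x + y)) * (x + y) + t / w * x = u
        field_simp
        ring
      · change (w * (x + y - u) - y * t) / (w * (x + y)) * 0 +
          (w * u - x * t) / (w * (x + y)) * 0 + t / w * w = t
        field_simp
        ring

/-- a real functional in rotated coordinates -/
noncomputable def GG (m : ℕ) (a b : ℝ) : ℂ →ₗ[ℝ] ℝ where
  toFun z := a * (loc m z).re + b * (loc m z).im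
  map_add' z z' := by
    unfold loc
    rw [mul_add, add_re, add_im]
    ring
  map_smul' r z := by
    unfold loc
    rw [real_smul, RingHom.id_apply, smul_eq_mul, mul_left_comm, re_ofReal_mul, im_ofReal_mul]
    ring

theorem GG_apply (m : ℕ) (a b : ℝ) (z : ℂ) : GG m a b z = a * (loc m z).re + b * (loc m z).im := rfl

theorem GG_ne {m : ℕ} {a b : ℝ} (h : 0 < a ^ 2 + b ^ 2) : 0 < GG m a b (I ^ m * ⟨a, b⟩) := by
  rw [GG_apply, loc_I]
  simp only
  nlinarith

theorem sep (f : ℂ →ₗ[ℝ] ℝ) {u : ℂ} (hu : 0 < f u) (c : ℝ) (v w : Fin 3 → ℂ)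
    (hv : ∀ a, f (v a) ≤ c) (hw : ∀ a, c ≤ f (w a)) :
    Disjoint (interior (convexHull ℝ (Set.range v))) (interior (convexHull ℝ (Set.range w))) := by
  have hS : convexHull ℝ (Set.range v) ⊆ {z | f z ≤ c} := by
    apply convexHull_min
    · rintro _ ⟨a, rfl⟩
      exact hv a
    · exact convex_halfSpace_le f.isLinear c
  have hT : convexHull ℝ (Set.range w) ⊆ {z | c ≤ f z} := by
    apply convexHull_min
    · rintro _ ⟨a, rfl⟩
      exact hw a
    · exact convex_halfSpace_ge f.isLinear c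
  rw [Set.disjoint_left]
  intro z hz1 hz2
  have h2 : c ≤ f z := hT (interior_subset hz2)
  have hcont : Filter.Tendsto (fun t : ℝ => z + t • u) (nhds 0) (nhds z) := by
    have h3 : Continuous (fun t : ℝ => z + t • u) := by fun_prop
    have h4 := h3.tendsto 0
    rwa [zero_smul, add_zero] at h4
  have h5 : ∀ᶠ t in nhds (0 : ℝ), z + t • u ∈ interior (convexHull ℝ (Set.range v)) :=
    hcont (isOpen_interior.mem_nhds hz1)
  obtain ⟨δ, hδ, hδ2⟩ := Metric.eventually_nhds_iff.1 h5
  have h6 := hδ2 (y := δ / 2) (by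
    rw [Real.dist_eq, sub_zero, abs_of_pos (by linarith)]
    linarith)
  have h7 : f (z + (δ / 2) • u) ≤ c := hS (interior_subset h6)
  rw [map_add, map_smul, smul_eq_mul] at h7
  have h8 : 0 < δ / 2 * f u := by positivity
  linarith

theorem within (w x y : ℝ) (hw : 0 < w) (hx : 0 < x) (hy : 0 < y) (m : ℕ) (c : ℂ) (j j' : Fin 3)
    (hj : j ≠ j') :
    Disjoint (interior (convexHull ℝ (Set.range (VV w x y m c j))))
      (interior (convexHull ℝ (Set.range (VV w x y m c j')))) := by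
  have hAC : Disjoint (interior (convexHull ℝ (Set.range (VV w x y m c 0))))
      (interior (convexHull ℝ (Set.range (VV w x y m c 2)))) := by
    refine sep (GG m w (-x)) (GG_ne (by positivity)) (w * c.re + (-x) * c.im) _ _ ?_ ?_
    · intro a
      rw [GG_apply, loc_VV]
      fin_cases a <;> simp [vt] <;> nlinarith
    · intro a
      rw [GG_apply, loc_VV]
      fin_cases a <;> simp [vt] <;> nlinarith
  have hCB : Disjoint (interior (convexHull ℝ (Set.range (VV w x y m c 2))))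
      (interior (convexHull ℝ (Set.range (VV w x y m c 1)))) := by
    refine sep (GG m w y) (GG_ne (by positivity)) (w * (x + y + c.re) + y * c.im) _ _ ?_ ?_
    · intro a
      rw [GG_apply, loc_VV]
      fin_cases a <;> simp [vt] <;> nlinarith
    · intro a
      rw [GG_apply, loc_VV]
      fin_cases a <;> simp [vt] <;> nlinarith
  have hAB : Disjoint (interior (convexHull ℝ (Set.range (VV w x y m c 0))))
      (interior (convexHull ℝ (Set.range (VV w x y m c 1)))) := by
    refine sep (GG m 1 0) (GG_ne (by norm_num)) (x + c.re) _ _ ?_ ?_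
    · intro a
      rw [GG_apply, loc_VV]
      fin_cases a <;> simp [vt] <;> nlinarith
    · intro a
      rw [GG_apply, loc_VV]
      fin_cases a <;> simp [vt] <;> nlinarith
  fin_cases j <;> fin_cases j'
  · exact absurd rfl hj
  · exact hAB
  · exact hAC
  · exact hAB.symm
  · exact absurd rfl hj
  · exact hCB.symm
  · exact hAC.symm
  · exact hCB
  · exact absurd rfl hj

theorem norm_mk {a b h : ℝ} (hh : 0 ≤ h) (e : a ^ 2 + b ^ 2 = h ^ 2) : ‖(⟨a, b⟩ : ℂ)‖ = h := by
  have h1 : ‖(⟨a, b⟩ : ℂ)‖ ^ 2 = h ^ 2 := by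
    rw [Complex.sq_norm, Complex.normSq_apply]
    simp only
    linarith
  exact (sq_eq_sq₀ (norm_nonneg _) hh).1 h1

theorem dist_VV (w x y : ℝ) (m : ℕ) (c : ℂ) (j a b : Fin 3) :
    dist (VV w x y m c j a) (VV w x y m c j b) = ‖vt w x y j a - vt w x y j b‖ := by
  rw [dist_eq_norm]
  unfold VV
  rw [← mul_sub, norm_mul, norm_pow, norm_I, one_pow, one_mul, add_sub_add_right_eq_sub]

/-- the side lengths: the distances of the vertices 0, 1; of 1, 2; of 0, 2 -/
theorem sides {w x y hx hy : ℝ} (h1 : 0 ≤ w) (h2 : 0 ≤ x) (h3 : 0 ≤ y) (h4 : 0 ≤ hx) (h5 : 0 ≤ hy)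
    (e1 : w ^ 2 + x ^ 2 = hx ^ 2) (e2 : w ^ 2 + y ^ 2 = hy ^ 2) (m : ℕ) (c : ℂ) :
    (dist (VV w x y m c 0 0) (VV w x y m c 0 1) = w ∧
      dist (VV w x y m c 0 1) (VV w x y m c 0 2) = x ∧
      dist (VV w x y m c 0 0) (VV w x y m c 0 2) = hx) ∧
    (dist (VV w x y m c 1 0) (VV w x y m c 1 1) = w ∧
      dist (VV w x y m c 1 1) (VV w x y m c 1 2) = y ∧
      dist (VV w x y m c 1 0) (VV w x y m c 1 2) = hy) ∧
    (dist (VV w x y m c 2 0) (VV w x y m c 2 1) = x + y ∧
      dist (VV w x y m c 2 1) (VV w x y m c 2 2) = hy ∧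
      dist (VV w x y m c 2 0) (VV w x y m c 2 2) = hx) := by
  have hsub : ∀ a b a' b' : ℝ, (⟨a, b⟩ : ℂ) - ⟨a', b'⟩ = ⟨a - a', b - b'⟩ := by
    intro a b a' b'
    apply Complex.ext <;> simp
  refine ⟨⟨?_, ?_, ?_⟩, ⟨?_, ?_, ?_⟩, ⟨?_, ?_, ?_⟩⟩
  · rw [dist_VV]
    change ‖(⟨0, 0⟩ : ℂ) - ⟨0, w⟩‖ = w
    rw [hsub]
    exact norm_mk h1 (by ring)
  · rw [dist_VV]
    change ‖(⟨0, w⟩ : ℂ) - ⟨x, w⟩‖ = x
    rw [hsub]
    exact norm_mk h2 (by ring)
  · rw [dist_VV]
    change ‖(⟨0, 0⟩ : ℂ) - ⟨x, w⟩‖ = hx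
    rw [hsub]
    exact norm_mk h4 (by linarith)
  · rw [dist_VV]
    change ‖(⟨x + y, 0⟩ : ℂ) - ⟨x + y, w⟩‖ = w
    rw [hsub]
    exact norm_mk h1 (by ring)
  · rw [dist_VV]
    change ‖(⟨x + y, w⟩ : ℂ) - ⟨x, w⟩‖ = y
    rw [hsub]
    exact norm_mk h3 (by ring)
  · rw [dist_VV]
    change ‖(⟨x + y, 0⟩ : ℂ) - ⟨x, w⟩‖ = hy
    rw [hsub]
    exact norm_mk h5 (by ring_nf; linarith)
  · rw [dist_VV]
    change ‖(⟨0, 0⟩ : ℂ) - ⟨x + y, 0⟩‖ = x + y
    rw [hsub]
    exact norm_mk (by linarith) (by ring)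
  · rw [dist_VV]
    change ‖(⟨x + y, 0⟩ : ℂ) - ⟨x, w⟩‖ = hy
    rw [hsub]
    exact norm_mk h5 (by ring_nf; linarith)
  · rw [dist_VV]
    change ‖(⟨0, 0⟩ : ℂ) - ⟨x, w⟩‖ = hx
    rw [hsub]
    exact norm_mk h4 (by linarith)

end Pool.Agent.H787NS
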