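import Pool.Agent.Helper787_NS.Seq
import Pool.Agent.Helper787_NS.Defs

/-!
# The tiling of the plane by pairwise non-similar integer-sided triangles
-/

set_option autoImplicit false

namespace Pool.Agent.H787NS

open Complex

/-- shortest side of tile `(n, j)` -/
noncomputable def mn (n : ℕ) : Fin 3 → ℝ :=
  match n with
  | 0 => ![9, 12, 15]
  | n + 1 => ![4 * kk n, 4 * kk n, (kk n : ℝ) ^ 2 + 4]

/-- longest side of tile `(n, j)` -/
noncomputable def mx (n : ℕ) : Fin 3 → ℝ :=
  match n with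
  | 0 => ![15, 37, 44]
  | n + 1 => ![4 * (kk n : ℝ) ^ 2 + 1, (kk n : ℝ) ^ 2 + 4, 5 * (kk n : ℝ) ^ 2 - 5]

/-- longest side over shortest side -/
noncomputable def rt (n : ℕ) (j : Fin 3) : ℝ := mx n j / mn n j

theorem mn_pos (n : ℕ) (j : Fin 3) : 0 < mn n j := by
  cases n with
  | zero => fin_cases j <;> norm_num [mn]
  | succ n =>
    have h := kkR n
    fin_cases j
    · change (0 : ℝ) < 4 * kk n
      linarith
    · change (0 : ℝ) < 4 * kk n
      linarith
    · change (0 : ℝ) < (kk n : ℝ) ^ 2 + 4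
      positivity

theorem rtA (n : ℕ) : (kk n : ℝ) < rt (n + 1) 0 ∧ rt (n + 1) 0 < kk n + 1 := by
  have h := kkR n
  have e : rt (n + 1) 0 = (4 * (kk n : ℝ) ^ 2 + 1) / (4 * kk n) := rfl
  rw [e, lt_div_iff₀ (by linarith), div_lt_iff₀ (by linarith)]
  constructor <;> nlinarith

theorem rtB (n : ℕ) : (kk n : ℝ) / 4 < rt (n + 1) 1 ∧ rt (n + 1) 1 < kk n / 4 + 1 := by
  have h := kkR n
  have e : rt (n + 1) 1 = ((kk n : ℝ) ^ 2 + 4) / (4 * kk n) := rfl
  rw [e, lt_div_iff₀ (by linarith), div_lt_iff₀ (by linarith)]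
  constructor <;> nlinarith

theorem rtC (n : ℕ) : (24 : ℝ) / 5 ≤ rt (n + 1) 2 ∧ rt (n + 1) 2 < 5 := by
  have h := kkR n
  have e : rt (n + 1) 2 = (5 * (kk n : ℝ) ^ 2 - 5) / ((kk n : ℝ) ^ 2 + 4) := rfl
  rw [e, div_le_div_iff₀ (by norm_num) (by positivity), div_lt_iff₀ (by positivity)]
  constructor <;> nlinarith

theorem kkR_lt {m n : ℕ} (h : m < n) : (13 : ℝ) * kk m ≤ kk n := by
  exact_mod_cast kk_lt h

theorem rt_ne_lt {n n' : ℕ} (h : n < n') (j j' : Fin 3) : rt n j ≠ rt n' j' := by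
  obtain ⟨m', rfl⟩ : ∃ m', n' = m' + 1 := ⟨n' - 1, by omega⟩
  have hk' := kkR m'
  have hA' := rtA m'
  have hB' := rtB m'
  have hC' := rtC m'
  cases n with
  | zero =>
    have i0 : rt 0 0 = 15 / 9 := rfl
    have i1 : rt 0 1 = 37 / 12 := rfl
    have i2 : rt 0 2 = 44 / 15 := rfl
    have hle : rt 0 j ≤ 37 / 12 := by
      fin_cases j
      · change rt 0 0 ≤ _
        rw [i0]
        norm_num
      · change rt 0 1 ≤ _
        rw [i1]
      · change rt 0 2 ≤ _
        rw [i2]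
        norm_num
    fin_cases j'
    · change rt 0 j ≠ rt (m' + 1) 0
      have : rt 0 j < rt (m' + 1) 0 := by linarith [hA'.1]
      exact this.ne
    · change rt 0 j ≠ rt (m' + 1) 1
      cases m' with
      | zero =>
        have e : rt 1 1 = 125 / 44 := by
          change (((11 : ℕ) : ℝ) ^ 2 + 4) / (4 * ((11 : ℕ) : ℝ)) = 125 / 44
          norm_num
        rw [e]
        fin_cases j
        · change rt 0 0 ≠ _
          rw [i0]
          norm_num
        · change rt 0 1 ≠ _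
          rw [i1]
          norm_num
        · change rt 0 2 ≠ _
          rw [i2]
          norm_num
      | succ m' =>
        have h1 := kkR_lt (Nat.lt_succ_self m')
        have h2 := kkR m'
        have : rt 0 j < rt (m' + 1 + 1) 1 := by
          have h3 := hB'.1
          have h4 : (13 : ℝ) * kk m' ≤ kk (m' + 1) := h1
          linarith
        exact this.ne
    · change rt 0 j ≠ rt (m' + 1) 2
      have : rt 0 j < rt (m' + 1) 2 := by linarith [hC'.1]
      exact this.ne
  | succ m =>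
    have hmm : m < m' := by omega
    have h13 := kkR_lt hmm
    have hk := kkR m
    have hA := rtA m
    have hB := rtB m
    have hC := rtC m
    fin_cases j <;> fin_cases j'
    · change rt (m + 1) 0 ≠ rt (m' + 1) 0
      have : rt (m + 1) 0 < rt (m' + 1) 0 := by linarith [hA.2, hA'.1]
      exact this.ne
    · change rt (m + 1) 0 ≠ rt (m' + 1) 1
      have : rt (m + 1) 0 < rt (m' + 1) 1 := by linarith [hA.2, hB'.1]
      exact this.ne
    · change rt (m + 1) 0 ≠ rt (m' + 1) 2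
      have : rt (m' + 1) 2 < rt (m + 1) 0 := by linarith [hA.1, hC'.2]
      exact this.ne'
    · change rt (m + 1) 1 ≠ rt (m' + 1) 0
      have : rt (m + 1) 1 < rt (m' + 1) 0 := by linarith [hB.2, hA'.1]
      exact this.ne
    · change rt (m + 1) 1 ≠ rt (m' + 1) 1
      have : rt (m + 1) 1 < rt (m' + 1) 1 := by linarith [hB.2, hB'.1]
      exact this.ne
    · change rt (m + 1) 1 ≠ rt (m' + 1) 2
      cases m with
      | zero =>
        have e : (kk 0 : ℝ) = 11 := by norm_num [kk, gk]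
        have : rt (0 + 1) 1 < rt (m' + 1) 2 := by
          have h3 := hB.2
          rw [e] at h3
          linarith [hC'.1]
        exact this.ne
      | succ m =>
        have h1 : (13 : ℝ) * kk m ≤ kk (m + 1) := kkR_lt (Nat.lt_succ_self m)
        have h2 := kkR m
        have : rt (m' + 1) 2 < rt (m + 1 + 1) 1 := by linarith [hB.1, hC'.2]
        exact this.ne'
    · change rt (m + 1) 2 ≠ rt (m' + 1) 0
      have : rt (m + 1) 2 < rt (m' + 1) 0 := by linarith [hC.2, hA'.1]
      exact this.ne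
    · change rt (m + 1) 2 ≠ rt (m' + 1) 1
      have : rt (m + 1) 2 < rt (m' + 1) 1 := by linarith [hC.2, hB'.1]
      exact this.ne
    · change rt (m + 1) 2 ≠ rt (m' + 1) 2
      have : rt (m + 1) 2 < rt (m' + 1) 2 := by
        have e : rt (m + 1) 2 = (5 * (kk m : ℝ) ^ 2 - 5) / ((kk m : ℝ) ^ 2 + 4) := rfl
        have e' : rt (m' + 1) 2 = (5 * (kk m' : ℝ) ^ 2 - 5) / ((kk m' : ℝ) ^ 2 + 4) := rfl
        rw [e, e', div_lt_div_iff₀ (by positivity) (by positivity)]
        have hlt : (kk m : ℝ) < kk m' := by linarith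
        have hsq : (kk m : ℝ) ^ 2 < (kk m' : ℝ) ^ 2 := by nlinarith
        nlinarith
      exact this.ne

theorem rt_ne_same (n : ℕ) {j j' : Fin 3} (h : j ≠ j') : rt n j ≠ rt n j' := by
  cases n with
  | zero =>
    have i0 : rt 0 0 = 15 / 9 := rfl
    have i1 : rt 0 1 = 37 / 12 := rfl
    have i2 : rt 0 2 = 44 / 15 := rfl
    fin_cases j <;> fin_cases j'
    · exact absurd rfl h
    · change rt 0 0 ≠ rt 0 1
      rw [i0, i1]
      norm_num
    · change rt 0 0 ≠ rt 0 2
      rw [i0, i2]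
      norm_num
    · change rt 0 1 ≠ rt 0 0
      rw [i0, i1]
      norm_num
    · exact absurd rfl h
    · change rt 0 1 ≠ rt 0 2
      rw [i1, i2]
      norm_num
    · change rt 0 2 ≠ rt 0 0
      rw [i0, i2]
      norm_num
    · change rt 0 2 ≠ rt 0 1
      rw [i1, i2]
      norm_num
    · exact absurd rfl h
  | succ m =>
    have hk := kkR m
    have hA := rtA m
    have hB := rtB m
    have hC := rtC m
    have hAB : rt (m + 1) 1 < rt (m + 1) 0 := by linarith [hA.1, hB.2]
    have hAC : rt (m + 1) 2 < rt (m + 1) 0 := by linarith [hA.1, hC.2]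
    have hBC : rt (m + 1) 1 ≠ rt (m + 1) 2 := by
      cases m with
      | zero =>
        have e : (kk 0 : ℝ) = 11 := by norm_num [kk, gk]
        have : rt (0 + 1) 1 < rt (0 + 1) 2 := by
          have h3 := hB.2
          rw [e] at h3
          linarith [hC.1]
        exact this.ne
      | succ m =>
        have h1 : (13 : ℝ) * kk m ≤ kk (m + 1) := kkR_lt (Nat.lt_succ_self m)
        have h2 := kkR m
        have : rt (m + 1 + 1) 2 < rt (m + 1 + 1) 1 := by linarith [hB.1, hC.2]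
        exact this.ne'
    fin_cases j <;> fin_cases j'
    · exact absurd rfl h
    · exact hAB.ne'
    · exact hAC.ne'
    · exact hAB.ne
    · exact absurd rfl h
    · exact hBC
    · exact hAC.ne
    · exact hBC.symm
    · exact absurd rfl h

theorem rt_ne {i i' : ℕ × Fin 3} (h : i ≠ i') : rt i.1 i.2 ≠ rt i'.1 i'.2 := by
  obtain ⟨n, j⟩ := i
  obtain ⟨n', j'⟩ := i'
  rcases lt_trichotomy n n' with h1 | h1 | h1
  · exact rt_ne_lt h1 j j'
  · subst h1
    exact rt_ne_same n (fun e => h (Prod.ext rfl e))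
  · exact (rt_ne_lt h1 j' j).symm

/-- `m` and `M` are the shortest and the longest side -/
def MM {E : Type} [PseudoMetricSpace E] (v : Fin 3 → E) (m M : ℝ) : Prop :=
  (∀ a b, a ≠ b → m ≤ dist (v a) (v b) ∧ dist (v a) (v b) ≤ M) ∧
    (∃ a b, a ≠ b ∧ dist (v a) (v b) = m) ∧ ∃ a b, a ≠ b ∧ dist (v a) (v b) = M

theorem MM_of {E : Type} [PseudoMetricSpace E] {v : Fin 3 → E} {a b c m M : ℝ}
    (h01 : dist (v 0) (v 1) = a) (h12 : dist (v 1) (v 2) = b) (h02 : dist (v 0) (v 2) = c)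
    (ha : m ≤ a ∧ a ≤ M) (hb : m ≤ b ∧ b ≤ M) (hc : m ≤ c ∧ c ≤ M)
    (hm : m = a ∨ m = b ∨ m = c) (hM : M = a ∨ M = b ∨ M = c) : MM v m M := by
  have h10 : dist (v 1) (v 0) = a := by rw [dist_comm, h01]
  have h21 : dist (v 2) (v 1) = b := by rw [dist_comm, h12]
  have h20 : dist (v 2) (v 0) = c := by rw [dist_comm, h02]
  refine ⟨?_, ?_, ?_⟩
  · intro x y hxy
    fin_cases x <;> fin_cases y
    · exact absurd rfl hxy
    · change m ≤ dist (v 0) (v 1) ∧ dist (v 0) (v 1) ≤ M
      rw [h01]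
      exact ha
    · change m ≤ dist (v 0) (v 2) ∧ dist (v 0) (v 2) ≤ M
      rw [h02]
      exact hc
    · change m ≤ dist (v 1) (v 0) ∧ dist (v 1) (v 0) ≤ M
      rw [h10]
      exact ha
    · exact absurd rfl hxy
    · change m ≤ dist (v 1) (v 2) ∧ dist (v 1) (v 2) ≤ M
      rw [h12]
      exact hb
    · change m ≤ dist (v 2) (v 0) ∧ dist (v 2) (v 0) ≤ M
      rw [h20]
      exact hc
    · change m ≤ dist (v 2) (v 1) ∧ dist (v 2) (v 1) ≤ M
      rw [h21]
      exact hb
    · exact absurd rfl hxy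
  · rcases hm with h | h | h
    · exact ⟨0, 1, by decide, by rw [h01, h]⟩
    · exact ⟨1, 2, by decide, by rw [h12, h]⟩
    · exact ⟨0, 2, by decide, by rw [h02, h]⟩
  · rcases hM with h | h | h
    · exact ⟨0, 1, by decide, by rw [h01, h]⟩
    · exact ⟨1, 2, by decide, by rw [h12, h]⟩
    · exact ⟨0, 2, by decide, by rw [h02, h]⟩

/-- the isometry from the complex plane to the Euclidean plane -/
noncomputable def ee : ℂ ≃ₗᵢ[ℝ] Plane := Complex.orthonormalBasisOneI.repr

/-- the vertices of the tiles in the Euclidean plane -/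
noncomputable def tile (i : ℕ × Fin 3) : Fin 3 → Plane := fun a => ee (TT i a)

theorem dist_tile (i : ℕ × Fin 3) (a b : Fin 3) :
    dist (tile i a) (tile i b) = dist (TT i a) (TT i b) := ee.dist_map _ _

theorem tri_tile (i : ℕ × Fin 3) : tri (tile i) = ee '' convexHull ℝ (Set.range (TT i)) := by
  have h1 : ee '' convexHull ℝ (Set.range (TT i)) =
      convexHull ℝ (ee '' Set.range (TT i)) :=
    ee.toLinearEquiv.toLinearMap.image_convexHull _
  rw [h1, ← Set.range_comp]
  rfl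

theorem int_tile (i : ℕ × Fin 3) :
    interior (tri (tile i)) = ee '' interior (convexHull ℝ (Set.range (TT i))) := by
  rw [tri_tile]
  exact (ee.toHomeomorph.image_interior _).symm

/-- the three sides of a tile are natural numbers which satisfy the strict triangle inequalities -/
theorem tile_sides (n : ℕ) (j : Fin 3) : ∃ a b c : ℕ, dist (tile (n, j) 0) (tile (n, j) 1) = a ∧
    dist (tile (n, j) 1) (tile (n, j) 2) = b ∧ dist (tile (n, j) 0) (tile (n, j) 2) = c ∧
    0 < a ∧ 0 < b ∧ 0 < c ∧ a < b + c ∧ b < a + c ∧ c < a + b := by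
  obtain ⟨⟨a1, a2, a3⟩, ⟨b1, b2, b3⟩, ⟨c1, c2, c3⟩⟩ := sides (WW_pos n).le (XX_pos n).le
    (YY_pos n).le (Nat.cast_nonneg (HX n)) (Nat.cast_nonneg (HY n)) (pyX n) (pyY n) (mr n) (cc n)
  have w0 : 0 < WW n := by exact_mod_cast WW_pos n
  have x0 : 0 < XX n := by exact_mod_cast XX_pos n
  have y0 : 0 < YY n := by exact_mod_cast YY_pos n
  have px : WW n ^ 2 + XX n ^ 2 = HX n ^ 2 := by exact_mod_cast pyX n
  have py : WW n ^ 2 + YY n ^ 2 = HY n ^ 2 := by exact_mod_cast pyY n
  have hx0 : 0 < HX n := by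
    by_contra h
    have : HX n = 0 := by omega
    rw [this] at px
    nlinarith
  have hy0 : 0 < HY n := by
    by_contra h
    have : HY n = 0 := by omega
    rw [this] at py
    nlinarith
  have u1 : WW n < HX n := by nlinarith
  have u2 : XX n < HX n := by nlinarith
  have u3 : HX n < WW n + XX n := by nlinarith
  have v1 : WW n < HY n := by nlinarith
  have v2 : YY n < HY n := by nlinarith
  have v3 : HY n < WW n + YY n := by nlinarith
  fin_cases j
  · exact ⟨WW n, XX n, HX n, (dist_tile (n, 0) 0 1).trans a1, (dist_tile (n, 0) 1 2).trans a2,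
      (dist_tile (n, 0) 0 2).trans a3, w0, x0, hx0, by omega, by omega, by omega⟩
  · exact ⟨WW n, YY n, HY n, (dist_tile (n, 1) 0 1).trans b1, (dist_tile (n, 1) 1 2).trans b2,
      (dist_tile (n, 1) 0 2).trans b3, w0, y0, hy0, by omega, by omega, by omega⟩
  · refine ⟨XX n + YY n, HY n, HX n, ?_, (dist_tile (n, 2) 1 2).trans c2,
      (dist_tile (n, 2) 0 2).trans c3, by omega, hy0, hx0, by omega, ?_, ?_⟩
    · rw [Nat.cast_add]
      exact (dist_tile (n, 2) 0 1).trans c1
    · omega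
    · omega

theorem tile_MM (n : ℕ) (j : Fin 3) : MM (tile (n, j)) (mn n j) (mx n j) := by
  obtain ⟨⟨a1, a2, a3⟩, ⟨b1, b2, b3⟩, ⟨c1, c2, c3⟩⟩ := sides (WW_pos n).le (XX_pos n).le
    (YY_pos n).le (Nat.cast_nonneg (HX n)) (Nat.cast_nonneg (HY n)) (pyX n) (pyY n) (mr n) (cc n)
  have A1 := (dist_tile (n, 0) 0 1).trans a1
  have A2 := (dist_tile (n, 0) 1 2).trans a2
  have A3 := (dist_tile (n, 0) 0 2).trans a3
  have B1 := (dist_tile (n, 1) 0 1).trans b1
  have B2 := (dist_tile (n, 1) 1 2).trans b2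
  have B3 := (dist_tile (n, 1) 0 2).trans b3
  have C1 := (dist_tile (n, 2) 0 1).trans c1
  have C2 := (dist_tile (n, 2) 1 2).trans c2
  have C3 := (dist_tile (n, 2) 0 2).trans c3
  cases n with
  | zero =>
    have e1 : (XX 0 : ℝ) = 9 := by norm_num [XX]
    have e2 : (YY 0 : ℝ) = 35 := by norm_num [YY]
    have e3 : (WW 0 : ℝ) = 12 := by norm_num [WW]
    have e4 : (HX 0 : ℝ) = 15 := by norm_num [HX]
    have e5 : (HY 0 : ℝ) = 37 := by norm_num [HY]
    rw [e3] at A1
    rw [e1] at A2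
    rw [e4] at A3
    rw [e3] at B1
    rw [e2] at B2
    rw [e5] at B3
    rw [e1, e2] at C1
    rw [e5] at C2
    rw [e4] at C3
    fin_cases j
    · change MM (tile (0, 0)) 9 15
      exact MM_of A1 A2 A3 (by norm_num) (by norm_num) (by norm_num) (by norm_num) (by norm_num)
    · change MM (tile (0, 1)) 12 37
      exact MM_of B1 B2 B3 (by norm_num) (by norm_num) (by norm_num) (by norm_num) (by norm_num)
    · change MM (tile (0, 2)) 15 44
      exact MM_of C1 C2 C3 (by norm_num) (by norm_num) (by norm_num) (by norm_num) (by norm_num)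
  | succ n =>
    have h := kkR n
    rw [WW_succ] at A1 B1
    rw [XX_succ] at A2
    rw [YY_succ] at B2
    rw [HX_succ] at A3 C3
    rw [HY_succ] at B3 C2
    rw [XX_succ, YY_succ] at C1
    fin_cases j
    · change MM (tile (n + 1, 0)) (4 * kk n) (4 * (kk n : ℝ) ^ 2 + 1)
      refine MM_of A1 A2 A3 ⟨?_, ?_⟩ ⟨?_, ?_⟩ ⟨?_, ?_⟩ (Or.inl rfl) (Or.inr (Or.inr rfl)) <;>
        nlinarith
    · change MM (tile (n + 1, 1)) (4 * kk n) ((kk n : ℝ) ^ 2 + 4)
      refine MM_of B1 B2 B3 ⟨?_, ?_⟩ ⟨?_, ?_⟩ ⟨?_, ?_⟩ (Or.inl rfl) (Or.inr (Or.inr rfl)) <;>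
        nlinarith
    · change MM (tile (n + 1, 2)) ((kk n : ℝ) ^ 2 + 4) (5 * (kk n : ℝ) ^ 2 - 5)
      refine MM_of C1 C2 C3 ⟨?_, ?_⟩ ⟨?_, ?_⟩ ⟨?_, ?_⟩ (Or.inr (Or.inl rfl)) (Or.inl ?_) <;>
        nlinarith

theorem MM_ratio {v w : Fin 3 → Plane} {m M m' M' : ℝ} (hv : MM v m M) (hw : MM w m' M')
    (h : SimilarTri v w) : M * m' = M' * m := by
  obtain ⟨σ, r, hr, hσ⟩ := h
  obtain ⟨hv1, ⟨a1, b1, hab1, e1⟩, ⟨a2, b2, hab2, e2⟩⟩ := hv
  obtain ⟨hw1, ⟨c1, d1, hcd1, f1⟩, ⟨c2, d2, hcd2, f2⟩⟩ := hw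
  have hM1 : M' ≤ r * M := by
    rw [← f2, hσ]
    exact mul_le_mul_of_nonneg_left (hv1 _ _ (fun e => hcd2 (σ.injective e))).2 hr.le
  have hM2 : r * M ≤ M' := by
    have h1 := hσ (σ.symm a2) (σ.symm b2)
    rw [σ.apply_symm_apply, σ.apply_symm_apply, e2] at h1
    rw [← h1]
    exact (hw1 _ _ (fun e => hab2 (σ.symm.injective e))).2
  have hm1 : r * m ≤ m' := by
    rw [← f1, hσ]
    exact mul_le_mul_of_nonneg_left (hv1 _ _ (fun e => hcd1 (σ.injective e))).1 hr.le
  have hm2 : m' ≤ r * m := by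
    have h1 := hσ (σ.symm a1) (σ.symm b1)
    rw [σ.apply_symm_apply, σ.apply_symm_apply, e1] at h1
    rw [← h1]
    exact (hw1 _ _ (fun e => hab1 (σ.symm.injective e))).1
  have g1 : M' = r * M := le_antisymm hM1 hM2
  have g2 : m' = r * m := le_antisymm hm2 hm1
  rw [g1, g2]
  ring

theorem not_similar {i i' : ℕ × Fin 3} (h : i ≠ i') : ¬ SimilarTri (tile i) (tile i') := by
  intro hs
  have h1 := MM_ratio (tile_MM i.1 i.2) (tile_MM i'.1 i'.2) hs
  apply rt_ne h
  unfold rt
  rw [div_eq_div_iff (mn_pos _ _).ne' (mn_pos _ _).ne']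
  exact h1

theorem tile_int (i : ℕ × Fin 3) : IntegerSided (tile i) := by
  obtain ⟨a, b, c, h01, h12, h02, ha, hb, hc, -⟩ := tile_sides i.1 i.2
  have h10 : dist (tile i 1) (tile i 0) = a := by rw [dist_comm]; exact h01
  have h21 : dist (tile i 2) (tile i 1) = b := by rw [dist_comm]; exact h12
  have h20 : dist (tile i 2) (tile i 0) = c := by rw [dist_comm]; exact h02
  intro x y hxy
  fin_cases x <;> fin_cases y
  · exact absurd rfl hxy
  · exact ⟨a, ha, h01⟩
  · exact ⟨c, hc, h02⟩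
  · exact ⟨a, ha, h10⟩
  · exact absurd rfl hxy
  · exact ⟨b, hb, h12⟩
  · exact ⟨c, hc, h20⟩
  · exact ⟨b, hb, h21⟩
  · exact absurd rfl hxy

theorem tile_nondeg (i : ℕ × Fin 3) : AffineIndependent ℝ (tile i) := by
  obtain ⟨a, b, c, h01, h12, h02, -, -, -, t1, t2, t3⟩ := tile_sides i.1 i.2
  have h10 : dist (tile i 1) (tile i 0) = a := by rw [dist_comm]; exact h01
  have h21 : dist (tile i 2) (tile i 1) = b := by rw [dist_comm]; exact h12
  have h20 : dist (tile i 2) (tile i 0) = c := by rw [dist_comm]; exact h02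
  have s1 : (a : ℝ) < b + c := by exact_mod_cast t1
  have s2 : (b : ℝ) < a + c := by exact_mod_cast t2
  have s3 : (c : ℝ) < a + b := by exact_mod_cast t3
  have hv : tile i = ![tile i 0, tile i 1, tile i 2] := by
    funext x
    fin_cases x <;> rfl
  rw [hv, affineIndependent_iff_not_collinear_set]
  intro hcol
  rcases hcol.wbtw_or_wbtw_or_wbtw with h | h | h
  · have := h.dist_add_dist
    have g1 : dist (tile i 0) (tile i 1) = a := h01
    have g2 : dist (tile i 1) (tile i 2) = b := h12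
    have g3 : dist (tile i 0) (tile i 2) = c := h02
    rw [g1, g2, g3] at this
    linarith
  · have := h.dist_add_dist
    have g2 : dist (tile i 1) (tile i 2) = b := h12
    rw [g2, h20, h10] at this
    linarith
  · have := h.dist_add_dist
    have g1 : dist (tile i 0) (tile i 1) = a := h01
    rw [h20, g1, h21] at this
    linarith

theorem tile_tiling : IsTiling tile := by
  refine ⟨tile_nondeg, ?_, ?_⟩
  · rw [Set.eq_univ_iff_forall]
    intro z
    obtain ⟨i, hi⟩ := TT_cover (ee.symm z)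
    rw [Set.mem_iUnion]
    refine ⟨i, ?_⟩
    rw [tri_tile]
    exact ⟨ee.symm z, hi, ee.apply_symm_apply z⟩
  · intro i i' h
    rw [int_tile, int_tile]
    exact (Set.disjoint_image_iff ee.injective).2 (TT_disj i i' h)

end Pool.Agent.H787NS
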