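import Pool.Agent.Helper787_NS.Geo

/-!
# The sequences of the spiral
-/

set_option autoImplicit false

namespace Pool.Agent.H787NS

open Complex

/-- a quarter of the two sides of the `n`-th rectangle; the second one is the side where the next
block is attached -/
def gk : ℕ → ℕ × ℕ
  | 0 => (3, 11)
  | n + 1 => ((gk n).2, (gk n).1 + 10 * (((gk n).2 ^ 2 - 1) / 8))

/-- a quarter of the side where block `n + 1` is attached -/
def kk (n : ℕ) : ℕ := (gk n).2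

theorem odd_sq {k : ℕ} (hk : Odd k) : 8 * ((k ^ 2 - 1) / 8) + 1 = k ^ 2 := by
  obtain ⟨j, rfl⟩ := hk
  obtain ⟨t, ht⟩ := Nat.even_mul_succ_self j
  have h1 : (2 * j + 1) ^ 2 = 8 * t + 1 := by
    have : (2 * j + 1) ^ 2 = 4 * (j * (j + 1)) + 1 := by ring
    rw [this, ht]
    ring
  rw [h1]
  omega

theorem gk_odd (n : ℕ) : Odd (gk n).1 ∧ Odd (gk n).2 ∧ 11 ≤ (gk n).2 := by
  induction n with
  | zero => exact ⟨⟨1, rfl⟩, ⟨5, rfl⟩, le_refl 11⟩
  | succ n ih =>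
    obtain ⟨h1, h2, h3⟩ := ih
    refine ⟨h2, ?_, ?_⟩
    · change Odd ((gk n).1 + 10 * (((gk n).2 ^ 2 - 1) / 8))
      refine h1.add_even ⟨5 * (((gk n).2 ^ 2 - 1) / 8), ?_⟩
      ring
    · change 11 ≤ (gk n).1 + 10 * (((gk n).2 ^ 2 - 1) / 8)
      have := odd_sq h2
      nlinarith

theorem gk_step (n : ℕ) : 4 * (gk (n + 1)).2 + 5 = 4 * (gk n).1 + 5 * (gk n).2 ^ 2 := by
  have := odd_sq (gk_odd n).2.1
  change 4 * ((gk n).1 + 10 * (((gk n).2 ^ 2 - 1) / 8)) + 5 = _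
  omega

theorem kk_ge (n : ℕ) : 11 ≤ kk n := (gk_odd n).2.2

theorem kk_succ (n : ℕ) : 13 * kk n ≤ kk (n + 1) := by
  have h1 := gk_step n
  have h2 := kk_ge n
  unfold kk at *
  nlinarith

theorem kk_lt {m n : ℕ} (h : m < n) : 13 * kk m ≤ kk n := by
  induction n, h using Nat.le_induction with
  | base => exact kk_succ m
  | succ n _ ih =>
    have := kk_succ n
    omega

/-- the long side of block `n` is `XX n + YY n`, the short one is `WW n` -/
def WW : ℕ → ℕ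
  | 0 => 12
  | n + 1 => 4 * kk n

/-- a leg -/
def XX : ℕ → ℕ
  | 0 => 9
  | n + 1 => 4 * kk n ^ 2 - 1

/-- a leg -/
def YY : ℕ → ℕ
  | 0 => 35
  | n + 1 => kk n ^ 2 - 4

/-- a hypotenuse -/
def HX : ℕ → ℕ
  | 0 => 15
  | n + 1 => 4 * kk n ^ 2 + 1

/-- a hypotenuse -/
def HY : ℕ → ℕ
  | 0 => 37
  | n + 1 => kk n ^ 2 + 4

theorem XX_succ (n : ℕ) : (XX (n + 1) : ℝ) = 4 * (kk n : ℝ) ^ 2 - 1 := by
  have h := kk_ge n
  unfold XX
  rw [Nat.cast_sub (by nlinarith)]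
  push_cast
  ring

theorem YY_succ (n : ℕ) : (YY (n + 1) : ℝ) = (kk n : ℝ) ^ 2 - 4 := by
  have h := kk_ge n
  unfold YY
  rw [Nat.cast_sub (by nlinarith)]
  push_cast
  ring

theorem WW_succ (n : ℕ) : (WW (n + 1) : ℝ) = 4 * (kk n : ℝ) := by
  unfold WW
  push_cast
  ring

theorem HX_succ (n : ℕ) : (HX (n + 1) : ℝ) = 4 * (kk n : ℝ) ^ 2 + 1 := by
  unfold HX
  push_cast
  ring

theorem HY_succ (n : ℕ) : (HY (n + 1) : ℝ) = (kk n : ℝ) ^ 2 + 4 := by
  unfold HY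
  push_cast
  ring

theorem kkR (n : ℕ) : (11 : ℝ) ≤ kk n := by exact_mod_cast kk_ge n

theorem WW_pos (n : ℕ) : (0 : ℝ) < WW n := by
  cases n with
  | zero => norm_num [WW]
  | succ n =>
    rw [WW_succ]
    linarith [kkR n]

theorem XX_pos (n : ℕ) : (0 : ℝ) < XX n := by
  cases n with
  | zero => norm_num [XX]
  | succ n =>
    rw [XX_succ]
    nlinarith [kkR n]

theorem YY_pos (n : ℕ) : (0 : ℝ) < YY n := by
  cases n with
  | zero => norm_num [YY]
  | succ n =>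
    rw [YY_succ]
    nlinarith [kkR n]

theorem pyX (n : ℕ) : (WW n : ℝ) ^ 2 + (XX n : ℝ) ^ 2 = (HX n : ℝ) ^ 2 := by
  cases n with
  | zero => norm_num [WW, XX, HX]
  | succ n =>
    rw [WW_succ, XX_succ, HX_succ]
    ring

theorem pyY (n : ℕ) : (WW n : ℝ) ^ 2 + (YY n : ℝ) ^ 2 = (HY n : ℝ) ^ 2 := by
  cases n with
  | zero => norm_num [WW, YY, HY]
  | succ n =>
    rw [WW_succ, YY_succ, HY_succ]
    ring

/-- the `n`-th rectangle is `[-p, q] × [-r, s]` in coordinates rotated back `n` times;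
`pos n = (p, q, r, s)` -/
def pos : ℕ → ℕ × ℕ × ℕ × ℕ
  | 0 => (12, 0, 0, 44)
  | n + 1 => ((pos n).2.2.1, (pos n).2.2.2, (pos n).2.1 + (XX (n + 1) + YY (n + 1)), (pos n).1)

/-- left extent -/
def pp (n : ℕ) : ℕ := (pos n).1
/-- right extent -/
def qq (n : ℕ) : ℕ := (pos n).2.1
/-- lower extent -/
def rr (n : ℕ) : ℕ := (pos n).2.2.1
/-- upper extent -/
def ss (n : ℕ) : ℕ := (pos n).2.2.2

theorem pp_succ (n : ℕ) : pp (n + 1) = rr n := rfl
theorem qq_succ (n : ℕ) : qq (n + 1) = ss n := rfl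
theorem rr_succ (n : ℕ) : rr (n + 1) = qq n + (XX (n + 1) + YY (n + 1)) := rfl
theorem ss_succ (n : ℕ) : ss (n + 1) = pp n := rfl

theorem XY_succ (n : ℕ) : XX (n + 1) + YY (n + 1) + 5 = 5 * kk n ^ 2 := by
  have h := kk_ge n
  change 4 * kk n ^ 2 - 1 + (kk n ^ 2 - 4) + 5 = 5 * kk n ^ 2
  have h1 : 121 ≤ kk n ^ 2 := by nlinarith
  omega

theorem extents (n : ℕ) : pp n + qq n = 4 * (gk n).1 ∧ rr n + ss n = 4 * (gk n).2 := by
  induction n with
  | zero => exact ⟨rfl, rfl⟩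
  | succ n ih =>
    rw [pp_succ, qq_succ, rr_succ, ss_succ]
    refine ⟨ih.2, ?_⟩
    have h1 := XY_succ n
    have h2 := gk_step n
    have h3 := ih.1
    unfold kk at h1
    omega

theorem rs_WW (n : ℕ) : (rr n : ℝ) + ss n = WW (n + 1) := by
  have := (extents n).2
  unfold WW kk
  exact_mod_cast this

/-- `z` lies in the `n`-th rectangle -/
def InN (n : ℕ) (z : ℂ) : Prop :=
  -(pp n : ℝ) ≤ (loc n z).re ∧ (loc n z).re ≤ qq n ∧ -(rr n : ℝ) ≤ (loc n z).im ∧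
    (loc n z).im ≤ ss n

theorem InN.succ {n : ℕ} {z : ℂ} (h : InN n z) : InN (n + 1) z := by
  obtain ⟨h1, h2, h3, h4⟩ := h
  unfold InN
  rw [loc_succ_re, loc_succ_im, pp_succ, qq_succ, rr_succ, ss_succ]
  push_cast
  have := XX_pos (n + 1)
  have := YY_pos (n + 1)
  refine ⟨h3, h4, ?_, ?_⟩ <;> linarith

theorem InN.mono {n m : ℕ} (hnm : n ≤ m) {z : ℂ} (h : InN n z) : InN m z := by
  induction m, hnm using Nat.le_induction with
  | base => exact h
  | succ m _ ih => exact ih.succ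

/-- rotation exponent of block `n` -/
def mr : ℕ → ℕ
  | 0 => 1
  | n + 1 => n

/-- shift of block `n` -/
noncomputable def cc : ℕ → ℂ
  | 0 => 0
  | n + 1 => ⟨qq n, -(rr n : ℝ)⟩

/-- the vertices of tile `(n, j)` -/
noncomputable def TT (i : ℕ × Fin 3) : Fin 3 → ℂ :=
  VV (WW i.1) (XX i.1) (YY i.1) (mr i.1) (cc i.1) i.2

theorem vt_bd {w x y : ℝ} (hw : 0 < w) (hx : 0 < x) (hy : 0 < y) (j a : Fin 3) :
    0 ≤ (vt w x y j a).re ∧ (vt w x y j a).re ≤ x + y ∧ 0 ≤ (vt w x y j a).im ∧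
      (vt w x y j a).im ≤ w := by
  fin_cases j <;> fin_cases a <;> refine ⟨?_, ?_, ?_, ?_⟩ <;> simp [vt] <;> linarith

theorem TT_in (n : ℕ) (j a : Fin 3) : InN n (TT (n, j) a) := by
  cases n with
  | zero =>
    obtain ⟨h1, h2, h3, h4⟩ := vt_bd (WW_pos 0) (XX_pos 0) (YY_pos 0) j a
    have h5 : loc 1 (TT (0, j) a) = vt (WW 0) (XX 0) (YY 0) j a + 0 := loc_VV _ _ _ 1 0 j a
    have h6 := loc_succ_re 0 (TT (0, j) a)
    have h7 := loc_succ_im 0 (TT (0, j) a)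
    rw [zero_add, h5, add_zero] at h6 h7
    have e1 : (XX 0 : ℝ) = 9 := by norm_num [XX]
    have e2 : (YY 0 : ℝ) = 35 := by norm_num [YY]
    have e3 : (WW 0 : ℝ) = 12 := by norm_num [WW]
    have f1 : (pp 0 : ℝ) = 12 := by norm_num [pp, pos]
    have f2 : (qq 0 : ℝ) = 0 := by norm_num [qq, pos]
    have f3 : (rr 0 : ℝ) = 0 := by norm_num [rr, pos]
    have f4 : (ss 0 : ℝ) = 44 := by norm_num [ss, pos]
    unfold InN
    rw [f1, f2, f3, f4]
    refine ⟨?_, ?_, ?_, ?_⟩ <;> linarith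
  | succ n =>
    obtain ⟨h1, h2, h3, h4⟩ := vt_bd (WW_pos (n + 1)) (XX_pos (n + 1)) (YY_pos (n + 1)) j a
    have h5 : loc n (TT (n + 1, j) a) = vt (WW (n + 1)) (XX (n + 1)) (YY (n + 1)) j a +
        ⟨qq n, -(rr n : ℝ)⟩ := loc_VV _ _ _ n _ j a
    have h6 := rs_WW n
    unfold InN
    rw [loc_succ_re, loc_succ_im, pp_succ, qq_succ, rr_succ, ss_succ, h5, add_re, add_im]
    simp only
    push_cast
    have g1 : (0 : ℝ) ≤ qq n := Nat.cast_nonneg _
    have g2 : (0 : ℝ) ≤ pp n := Nat.cast_nonneg _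
    refine ⟨?_, ?_, ?_, ?_⟩ <;> linarith

theorem TT_right (n : ℕ) (j a : Fin 3) : (qq n : ℝ) ≤ (loc n (TT (n + 1, j) a)).re := by
  obtain ⟨h1, h2, h3, h4⟩ := vt_bd (WW_pos (n + 1)) (XX_pos (n + 1)) (YY_pos (n + 1)) j a
  have h5 : loc n (TT (n + 1, j) a) = vt (WW (n + 1)) (XX (n + 1)) (YY (n + 1)) j a +
      ⟨qq n, -(rr n : ℝ)⟩ := loc_VV _ _ _ n _ j a
  rw [h5, add_re]
  simp only
  linarith

theorem big (N : ℕ) : ∃ n, N ≤ pp n ∧ N ≤ qq n ∧ N ≤ rr n ∧ N ≤ ss n := by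
  induction N with
  | zero => exact ⟨0, Nat.zero_le _, Nat.zero_le _, Nat.zero_le _, Nat.zero_le _⟩
  | succ N ih =>
    obtain ⟨n, h1, h2, h3, h4⟩ := ih
    have hX : ∀ m, 1 ≤ XX m := fun m => by
      have := XX_pos m
      exact_mod_cast this
    have x1 := hX (n + 1)
    have x2 := hX (n + 2)
    have x3 := hX (n + 3)
    have x4 := hX (n + 4)
    refine ⟨n + 4, ?_, ?_, ?_, ?_⟩
    · change N + 1 ≤ pp n + (XX (n + 3) + YY (n + 3))
      omega
    · change N + 1 ≤ qq n + (XX (n + 1) + YY (n + 1))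
      omega
    · change N + 1 ≤ rr n + (XX (n + 4) + YY (n + 4))
      omega
    · change N + 1 ≤ ss n + (XX (n + 2) + YY (n + 2))
      omega

theorem exists_InN (z : ℂ) : ∃ n, InN n z := by
  obtain ⟨N, hN⟩ := exists_nat_ge ‖z‖
  obtain ⟨n, h1, h2, h3, h4⟩ := big N
  have g1 : (N : ℝ) ≤ pp n := by exact_mod_cast h1
  have g2 : (N : ℝ) ≤ qq n := by exact_mod_cast h2
  have g3 : (N : ℝ) ≤ rr n := by exact_mod_cast h3
  have g4 : (N : ℝ) ≤ ss n := by exact_mod_cast h4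
  have h5 := Complex.abs_re_le_norm (loc n z)
  have h6 := Complex.abs_im_le_norm (loc n z)
  rw [norm_loc] at h5 h6
  have h7 := abs_le.1 h5
  have h8 := abs_le.1 h6
  refine ⟨n, ?_, ?_, ?_, ?_⟩ <;> linarith [h7.1, h7.2, h8.1, h8.2]

theorem cover_of_InN (n : ℕ) (z : ℂ) (h : InN n z) :
    ∃ i, z ∈ convexHull ℝ (Set.range (TT i)) := by
  induction n with
  | zero =>
    obtain ⟨h1, h2, h3, h4⟩ := h
    have h6 := loc_succ_re 0 z
    have h7 := loc_succ_im 0 z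
    rw [zero_add] at h6 h7
    have e1 : (XX 0 : ℝ) = 9 := by norm_num [XX]
    have e2 : (YY 0 : ℝ) = 35 := by norm_num [YY]
    have e3 : (WW 0 : ℝ) = 12 := by norm_num [WW]
    have f1 : (pp 0 : ℝ) = 12 := by norm_num [pp, pos]
    have f2 : (qq 0 : ℝ) = 0 := by norm_num [qq, pos]
    have f3 : (rr 0 : ℝ) = 0 := by norm_num [rr, pos]
    have f4 : (ss 0 : ℝ) = 44 := by norm_num [ss, pos]
    rw [f1] at h1
    rw [f2] at h2
    rw [f3] at h3
    rw [f4] at h4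
    obtain ⟨j, hj⟩ := block_cover (WW_pos 0) (XX_pos 0) (YY_pos 0) 1 0 z
      (by rw [zero_re]; linarith) (by rw [zero_re]; linarith) (by rw [zero_im]; linarith)
      (by rw [zero_im]; linarith)
    exact ⟨(0, j), hj⟩
  | succ n ih =>
    unfold InN at h
    rw [loc_succ_re, loc_succ_im, pp_succ, qq_succ, rr_succ, ss_succ] at h
    push_cast at h
    obtain ⟨h1, h2, h3, h4⟩ := h
    by_cases hq : (loc n z).re ≤ qq n
    · exact ih ⟨by linarith, hq, h1, h2⟩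
    · push Not at hq
      have h6 := rs_WW n
      obtain ⟨j, hj⟩ := block_cover (WW_pos (n + 1)) (XX_pos (n + 1)) (YY_pos (n + 1)) n
        ⟨qq n, -(rr n : ℝ)⟩ z (by simp only; linarith) (by simp only; linarith)
        (by simp only; linarith) (by simp only; linarith)
      exact ⟨(n + 1, j), hj⟩

theorem TT_cover (z : ℂ) : ∃ i, z ∈ convexHull ℝ (Set.range (TT i)) := by
  obtain ⟨n, hn⟩ := exists_InN z
  exact cover_of_InN n z hn

theorem TT_disj_lt {n m : ℕ} (h : n < m) (j j' : Fin 3) :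
    Disjoint (interior (convexHull ℝ (Set.range (TT (n, j)))))
      (interior (convexHull ℝ (Set.range (TT (m, j'))))) := by
  obtain ⟨m, rfl⟩ : ∃ m', m = m' + 1 := ⟨m - 1, by omega⟩
  refine sep (GG m 1 0) (GG_ne (by norm_num)) (qq m) _ _ ?_ ?_
  · intro a
    have h1 := (TT_in n j a).mono (show n ≤ m by omega)
    rw [GG_apply, one_mul, zero_mul, add_zero]
    exact h1.2.1
  · intro a
    rw [GG_apply, one_mul, zero_mul, add_zero]
    exact TT_right m j' a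

theorem TT_disj (i i' : ℕ × Fin 3) (h : i ≠ i') :
    Disjoint (interior (convexHull ℝ (Set.range (TT i))))
      (interior (convexHull ℝ (Set.range (TT i')))) := by
  obtain ⟨n, j⟩ := i
  obtain ⟨n', j'⟩ := i'
  rcases lt_trichotomy n n' with h1 | h1 | h1
  · exact TT_disj_lt h1 j j'
  · subst h1
    have hj : j ≠ j' := fun e => h (by rw [e])
    exact within _ _ _ (WW_pos n) (XX_pos n) (YY_pos n) _ _ j j' hj
  · exact (TT_disj_lt h1 j' j).symm

end Pool.Agent.H787NS
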